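import Pool.Agent.R740.Cone.Final

set_option autoImplicit false

/-!
# A Ricci flow invariant curvature cone with the pinching property outside `C_{IC1}`

In every dimension `n ≥ 4` there is a curvature cone that is Ricci flow invariant, has the pinching
property and is not contained in `C_{IC1}`.

Write an algebraic curvature operator as `R = x Id + V + W`, where `V` is the part given by the
trace free Ricci tensor and `W` is the Weyl part.  The cone is
`C = {R : |V|² + α |W|² ≤ ρ x², x ≥ 0}`, with `α = 4`, `ρ = 19 / 5` in dimensions `4, 5, 6` and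
`α = 2`, `ρ = 4` in dimensions `n ≥ 7`.

* Invariance and the pinching property: along `R' = Q(R)` the quantity
  `(|V|² + α |W|²) / x ^ (2 - ε)` is not increasing on `C` for a small `ε > 0`
  (`Pool.Agent.R740.Cone.main_est`).
  This uses the evolution of `|V|²` and `|W|²` with the exact coupling of the two parts, a sharp
  bound of the coupling term, a variance inequality for the cubic term in the Ricci part and a
  bound of `⟪W, Q(W)⟫` by a multiple of `|W|³` for Weyl operators.
* The cone contains an operator with `R_{1313} + R_{2323} < 0`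
  (`Pool.Agent.R740.Cone.violation`), so it is not contained in `C_{IC1}` (take `λ = 0`).
-/

open Matrix Pool.Agent.H16R3.Curv

namespace Pool.Agent.Results.MP_952e48_gt.ConeOutsideIC1

/-- `⟪R (x ∧ y), z ∧ w⟫` -/
def ev {n : ℕ} (R : Tensor4 n) (x y z w : Fin n → ℝ) : ℝ :=
  ∑ i, ∑ j, ∑ k, ∑ l, R i j k l * x i * y j * z k * w l

/-- The cone `C_{IC1}`: the algebraic curvature operators `R` with
`R_{1313} + λ² R_{1414} + R_{2323} + λ² R_{2424} - 2 λ R_{1234} ≥ 0`
for all orthonormal `e_1, …, e_4` (here `e 0, …, e 3`) and all `λ ∈ [0, 1]`. -/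
def IC1 (n : ℕ) : Set (Tensor4 n) :=
  {R | R ∈ CurvOp n ∧ ∀ e : Fin 4 → Fin n → ℝ,
    (∀ a b, e a ⬝ᵥ e b = if a = b then 1 else 0) → ∀ lam : ℝ, 0 ≤ lam → lam ≤ 1 →
      0 ≤ ev R (e 0) (e 2) (e 0) (e 2) + lam ^ 2 * ev R (e 0) (e 3) (e 0) (e 3) +
        ev R (e 1) (e 2) (e 1) (e 2) + lam ^ 2 * ev R (e 1) (e 3) (e 1) (e 3) -
        2 * lam * ev R (e 0) (e 1) (e 2) (e 3)}

lemma ev_single {n : ℕ} (R : Tensor4 n) (a b c d : Fin n) :
    ev R (dl a) (dl b) (dl c) (dl d) = R a b c d := by
  unfold ev
  have e : ∀ i j k l, R i j k l * dl a i * dl b j * dl c k * dl d l =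
      dl a i * (dl b j * (dl c k * (dl d l * R i j k l))) := by
    intro i j k l; ring
  simp_rw [e, ← Finset.mul_sum, sum_dl]

/-- In every dimension `n ≥ 4` there is a Ricci flow invariant curvature cone with the pinching
property that is not contained in `C_{IC1}`. -/
theorem result (n : ℕ) (hn : 4 ≤ n) :
    ∃ C : Set (Tensor4 n), IsPinchingCone n C ∧ ¬ C ⊆ IC1 n := by
  obtain ⟨C, hC, hv⟩ := Pool.Agent.R740.Cone.exists_cone hn
  refine ⟨C, hC, fun hsub => ?_⟩
  have hinj : Function.Injective (Fin.castLE hn) := Fin.castLE_injective hn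
  set f : Fin 4 → Fin n := Fin.castLE hn with hf
  have hne : ∀ {a b : Fin 4}, a ≠ b → f a ≠ f b := fun h h' => h (hinj h')
  obtain ⟨R, hR, hneg⟩ := hv (f 0) (f 1) (f 2) (hne (by decide)) (hne (by decide))
    (hne (by decide))
  have h := (hsub hR).2 (fun a => dl (f a)) ?_ 0 le_rfl zero_le_one
  · simp only [ev_single] at h
    norm_num at h
    linarith
  · intro a b
    show ∑ i, dl (f a) i * dl (f b) i = _
    rw [sum_dl (f a) (fun i => dl (f b) i)]
    by_cases hab : a = b
    · subst hab; simp [dl_self]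
    · rw [dl_ne (hne (Ne.symm hab)), if_neg hab]

end Pool.Agent.Results.MP_952e48_gt.ConeOutsideIC1
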